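import Pool.Agent.Helper49.Ric.Smooth
import Pool.Agent.Helper49.Ric.Disc
import Pool.Agent.Helper49.Ric.Complete

/-!
# Disproof of the bi-Lipschitz embedding conjecture for nonnegative Ricci curvature

For every `n ≥ 46` there is a complete smooth Riemannian metric on `ℝⁿ` with nonnegative Ricci
curvature which admits no bi-Lipschitz embedding (of any distortion) into any real inner product
space; in particular into no Euclidean space `ℝᴺ`.
-/

namespace Pool.Agent.Results.MP_39014e_gt.NoEmbedding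

open Pool.Agent.Helper49.Ric

universe u

/-- For every `n ≥ 46` there is a complete Riemannian metric on the manifold `ℝⁿ` with nonnegative
Ricci curvature such that no map to a real inner product space is a bi-Lipschitz embedding. -/
theorem result (n : ℕ) (hn : 46 ≤ n) :
    ∃ G : (Fin n → ℝ) → Matrix (Fin n) (Fin n) ℝ,
      IsRiemannianMetric G ∧ IsCompleteMetric G ∧ NonnegRicci G ∧
      ∀ (H : Type u) [NormedAddCommGroup H] [InnerProductSpace ℝ H] (f : (Fin n → ℝ) → H)
        (s D : ℝ), 0 < s →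
        ¬ ∀ p q, s * rdist G p q ≤ ‖f p - f q‖ ∧ ‖f p - f q‖ ≤ s * D * rdist G p q := by
  obtain ⟨k, rfl⟩ : ∃ k, n = k + 3 := ⟨n - 3, by omega⟩
  refine ⟨G k, isRiemannianMetric k, complete k,
    nonnegRicci (by omega), ?_⟩
  intro H _ _ f s D hs hbl
  obtain ⟨κ, hκ, hv⟩ := vertical k
  have up : ∀ p q, ‖f p - f q‖ ≤ s * |D| * rdist (G k) p q := by
    intro p q
    refine (hbl p q).2.trans ?_
    exact mul_le_mul_of_nonneg_right (mul_le_mul_of_nonneg_left (le_abs_self D) hs.le)
      (rdist_nonneg p q)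
  have hsD : 0 ≤ s * |D| := mul_nonneg hs.le (abs_nonneg D)
  refine no_disc_E (fun x y z : ℤ => f (pt k x y z)) (s * |D| * 2) (s ^ 2 * κ) (by positivity)
    ?_ ?_ ?_
  · intro x y z
    rw [norm_sub_rev]
    refine (up _ _).trans (mul_le_mul_of_nonneg_left ?_ hsD)
    have := step_x (k := k) (x : ℝ) y z
    push_cast
    exact this
  · intro x y z
    rw [norm_sub_rev]
    refine (up _ _).trans (mul_le_mul_of_nonneg_left ?_ hsD)
    have := step_y (k := k) (x : ℝ) y z
    push_cast
    exact this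
  · intro x y z j
    rw [norm_sub_rev]
    have h1 := (hbl (pt k x y z) (pt k x y (z + 4 ^ j))).1
    have h2 := hv (x : ℝ) y z j
    have h0 := rdist_nonneg (pt k (x : ℝ) y z)
      (pt k (x : ℝ) y (z + 4 ^ j))
    push_cast
    have h3 : (s * rdist (G k) (pt k (x : ℝ) y z) (pt k (x : ℝ) y (z + 4 ^ j))) ^ 2 ≤
        ‖f (pt k (x : ℝ) y z) - f (pt k (x : ℝ) y (z + 4 ^ j))‖ ^ 2 :=
      pow_le_pow_left₀ (mul_nonneg hs.le h0) h1 2
    refine le_trans ?_ h3
    rw [mul_pow]
    calc s ^ 2 * κ * 4 ^ j / (j + 1) = s ^ 2 * (κ * 4 ^ j / (j + 1)) := by ring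
      _ ≤ _ := mul_le_mul_of_nonneg_left h2 (by positivity)

end Pool.Agent.Results.MP_39014e_gt.NoEmbedding
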